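import Mathlib

set_option autoImplicit false

namespace Pool.Agent.Helper54_ConvexBase

open Metric Set

variable {X : Type*} [NormedAddCommGroup X] [NormedSpace ℝ X]

/-- `Cov Y q`: the open `q`-neighbourhood of `Y` is covered by countably many disjoint families of
open convex sets, each set lying in a ball of radius `q`. -/
def Cov (Y : Set X) (q : ℝ) : Prop :=
  ∃ 𝒞 : ℕ → Set (Set X),
    (∀ n, ∀ C ∈ 𝒞 n, IsOpen C ∧ Convex ℝ C ∧ ∃ c, C ⊆ ball c q) ∧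
    (∀ n, ∀ C ∈ 𝒞 n, ∀ D ∈ 𝒞 n, (C ∩ D).Nonempty → C = D) ∧
    ∀ x, (∃ u ∈ Y, ‖x - u‖ < q) → ∃ n, ∃ C ∈ 𝒞 n, x ∈ C

lemma Cov.of_encodable {κ : Type} [Encodable κ] {Y : Set X} {q : ℝ} (𝒞 : κ → Set (Set X))
    (h1 : ∀ n, ∀ C ∈ 𝒞 n, IsOpen C ∧ Convex ℝ C ∧ ∃ c, C ⊆ ball c q)
    (h2 : ∀ n, ∀ C ∈ 𝒞 n, ∀ D ∈ 𝒞 n, (C ∩ D).Nonempty → C = D)
    (h3 : ∀ x, (∃ u ∈ Y, ‖x - u‖ < q) → ∃ n, ∃ C ∈ 𝒞 n, x ∈ C) : Cov Y q := by
  refine ⟨fun n => {C | ∃ k : κ, Encodable.encode k = n ∧ C ∈ 𝒞 k}, ?_, ?_, ?_⟩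
  · rintro n C ⟨k, -, hC⟩
    exact h1 k C hC
  · rintro n C ⟨k, hk, hC⟩ D ⟨k', hk', hD⟩ hne
    have : k = k' := Encodable.encode_injective (hk.trans hk'.symm)
    subst this
    exact h2 k C hC D hD hne
  · intro x hx
    obtain ⟨k, C, hC, hxC⟩ := h3 x hx
    exact ⟨Encodable.encode k, C, ⟨k, rfl, hC⟩, hxC⟩

/-- Adding one vector to a subspace: translate by rational multiples of it. -/
lemma Cov.add_span {Y : Submodule ℝ X} {q : ℝ} (h : Cov (Y : Set X) q) (y : X) :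
    Cov ((Y ⊔ Submodule.span ℝ {y} : Submodule ℝ X) : Set X) q := by
  obtain ⟨𝒞, h1, h2, h3⟩ := h
  refine Cov.of_encodable (κ := ℚ × ℕ)
    (fun p => {D | ∃ C ∈ 𝒞 p.2, D = (fun x => x + (-(p.1 : ℝ)) • y) ⁻¹' C}) ?_ ?_ ?_
  · rintro ⟨t, n⟩ D ⟨C, hC, rfl⟩
    obtain ⟨ho, hc, c, hcb⟩ := h1 n C hC
    refine ⟨ho.preimage (by fun_prop), ?_, c + (t : ℝ) • y, ?_⟩
    · exact hc.translate_preimage_left _
    · intro x hx
      have := hcb hx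
      rw [mem_ball, dist_eq_norm] at this ⊢
      convert this using 2
      simp only [neg_smul]
      abel
  · rintro ⟨t, n⟩ D ⟨C, hC, rfl⟩ D' ⟨C', hC', rfl⟩ ⟨x, hx, hx'⟩
    have : C = C' := h2 n C hC C' hC' ⟨_, hx, hx'⟩
    rw [this]
  · rintro x ⟨u, hu, hxu⟩
    obtain ⟨v, hv, w, hw, rfl⟩ := Submodule.mem_sup.1 hu
    obtain ⟨s, rfl⟩ := Submodule.mem_span_singleton.1 hw
    have hopen : IsOpen {t : ℝ | ‖x - (v + t • y)‖ < q} := isOpen_lt (by fun_prop) continuous_const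
    obtain ⟨t, ht⟩ := Rat.isDenseEmbedding_coe_real.dense.exists_mem_open hopen ⟨s, hxu⟩
    obtain ⟨n, C, hC, hxC⟩ := h3 (x + (-(t : ℝ)) • y) ⟨v, hv, by
      have := ht
      simp only [mem_ofPred_eq] at this
      convert this using 2
      simp only [neg_smul]
      abel⟩
    exact ⟨(t, n), _, ⟨C, hC, rfl⟩, hxC⟩

end Pool.Agent.Helper54_ConvexBase
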