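import Pool.Agent.Helper54_ConvexBase.Step

set_option autoImplicit false

namespace Pool.Agent.Helper54_ConvexBase

open Metric Set

/-- Every real normed space has a base for its norm topology which consists of convex open sets and is
the union of countably many discrete families. -/
theorem exists_convex_sigma_discrete_base (X : Type*) [NormedAddCommGroup X] [NormedSpace ℝ X] :
    ∃ B : Set (Set X), TopologicalSpace.IsTopologicalBasis B ∧
      (∀ s ∈ B, Convex ℝ s) ∧
      ∃ F : ℕ → Set (Set X), B = ⋃ n, F n ∧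
        ∀ n : ℕ, ∀ x : X, ∃ U ∈ nhds x,
          Set.Subsingleton {s : Set X | s ∈ F n ∧ (s ∩ U).Nonempty} := by
  classical
  have hc : ∀ k : ℕ, Cov (Set.univ : Set X) (1 / ((k : ℝ) + 1)) := fun k =>
    Cov.univ (by positivity)
  choose 𝒞 h1 h2 h3 using hc
  let inn : Set X → ℕ → Set X := fun C m => {x | ball x (1 / ((m : ℝ) + 1)) ⊆ C}
  have hinn : ∀ C m, Convex ℝ C → Convex ℝ (inn C m) := by
    intro C m hC x hx y hy s t hs ht hst z hz
    rw [mem_ball, dist_eq_norm] at hz
    set w := z - (s • x + t • y) with hw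
    have e : z = s • (x + w) + t • (y + w) := by
      have : s • (x + w) + t • (y + w) = (s • x + t • y) + (s + t) • w := by
        rw [add_smul, smul_add, smul_add]; abel
      rw [this, hst, one_smul, hw]
      abel
    rw [e]
    refine hC (hx ?_) (hy ?_) hs ht hst
    · rw [mem_ball, dist_eq_norm]; simpa using hz
    · rw [mem_ball, dist_eq_norm]; simpa using hz
  let F : ℕ → Set (Set X) := fun p =>
    {D | ∃ C ∈ 𝒞 (Nat.unpair p).1 (Nat.unpair (Nat.unpair p).2).1,
      D = interior (inn C (Nat.unpair (Nat.unpair p).2).2)}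
  refine ⟨⋃ n, F n, ?_, ?_, F, rfl, ?_⟩
  · refine TopologicalSpace.isTopologicalBasis_of_isOpen_of_nhds ?_ ?_
    · intro D hD
      obtain ⟨n, C, hC, rfl⟩ := mem_iUnion.1 hD
      exact isOpen_interior
    · intro x u hxu hu
      obtain ⟨ε, hε, hεu⟩ := Metric.isOpen_iff.1 hu x hxu
      obtain ⟨k, hk⟩ := exists_nat_one_div_lt (half_pos hε)
      obtain ⟨n, C, hC, hxC⟩ := h3 k x ⟨x, mem_univ _, by simp; positivity⟩
      obtain ⟨ho, hconv, c, hcb⟩ := h1 k n C hC
      obtain ⟨r, hr, hrC⟩ := Metric.isOpen_iff.1 ho x hxC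
      obtain ⟨m, hm⟩ := exists_nat_one_div_lt (half_pos hr)
      refine ⟨interior (inn C m), ?_, ?_, ?_⟩
      · refine mem_iUnion.2 ⟨Nat.pair k (Nat.pair n m), C, ?_, ?_⟩
        · simpa using hC
        · simp
      · rw [mem_interior_iff_mem_nhds, Metric.mem_nhds_iff]
        refine ⟨r / 2, half_pos hr, ?_⟩
        intro y hy z hz
        apply hrC
        rw [mem_ball] at *
        have := dist_triangle z y x
        linarith
      · refine interior_subset.trans ?_
        intro y hy
        apply hεu
        have hyC : y ∈ C := hy (mem_ball_self (by positivity))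
        have h4 := hcb hyC
        have h5 := hcb hxC
        rw [mem_ball] at *
        have := dist_triangle_right y x c
        linarith
  · intro D hD
    obtain ⟨n, C, hC, rfl⟩ := mem_iUnion.1 hD
    exact (hinn _ _ (h1 _ _ C hC).2.1).interior
  · intro p z
    set m := (Nat.unpair (Nat.unpair p).2).2 with hm
    refine ⟨ball z (1 / ((m : ℝ) + 1) / 2), ball_mem_nhds _ (by positivity), ?_⟩
    rintro D ⟨⟨C, hC, hCD⟩, x, hxD, hxz⟩ D' ⟨⟨C', hC', hCD'⟩, x', hxD', hxz'⟩
    rw [← hm] at hCD hCD'
    rw [hCD] at hxD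
    rw [hCD'] at hxD'
    have h5 : x' ∈ C := by
      apply interior_subset hxD
      rw [mem_ball] at *
      have := dist_triangle_right x' x z
      linarith
    have h6 : x' ∈ C' := interior_subset hxD' (mem_ball_self (by positivity))
    have : C = C' := h2 _ _ C hC C' hC' ⟨x', h5, h6⟩
    rw [hCD, hCD', this]

end Pool.Agent.Helper54_ConvexBase
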