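import Pool.Agent.Helper54_ConvexBase.Basic

set_option autoImplicit false

namespace Pool.Agent.Helper54_ConvexBase

open Metric Set

variable {X : Type*} [NormedAddCommGroup X] [NormedSpace ℝ X]

lemma mem_span_image {I : Type*} [LinearOrder I] (v : I → X) {L : Set I}
    {u : X} (hu : u ∈ Submodule.span ℝ (v '' L)) :
    u = 0 ∨ ∃ i ∈ L, u ∈ Submodule.span ℝ (v '' Iic i) := by
  induction hu using Submodule.span_induction with
  | mem x hx =>
    obtain ⟨i, hi, rfl⟩ := hx
    exact Or.inr ⟨i, hi, Submodule.subset_span ⟨i, mem_Iic.2 le_rfl, rfl⟩⟩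
  | zero => exact Or.inl rfl
  | add x y _ _ hx hy =>
    rcases hx with rfl | ⟨i, hi, hx⟩
    · simpa using hy
    · rcases hy with rfl | ⟨j, hj, hy⟩
      · simpa using Or.inr ⟨i, hi, hx⟩
      · rcases le_total i j with hij | hij
        · exact Or.inr ⟨j, hj, add_mem (Submodule.span_mono (image_mono (Iic_subset_Iic.2 hij)) hx)
            hy⟩
        · exact Or.inr ⟨i, hi, add_mem hx
            (Submodule.span_mono (image_mono (Iic_subset_Iic.2 hij)) hy)⟩
  | smul a x _ hx =>
    rcases hx with rfl | ⟨i, hi, hx⟩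
    · simp
    · exact Or.inr ⟨i, hi, Submodule.smul_mem _ _ hx⟩

lemma exists_functional (Y : Submodule ℝ X) (x : X) {q : ℝ} (hq : 0 < q)
    (h : ∀ u ∈ Y, q ≤ ‖x - u‖) :
    ∃ f : StrongDual ℝ X, ‖f‖ ≤ 1 ∧ (∀ u ∈ Y, f u = 0) ∧ q ≤ f x := by
  obtain ⟨f, u0, hf1, hf2⟩ := geometric_hahn_banach_open (s := ball x q) (t := (Y : Set X))
    (convex_ball x q) isOpen_ball Y.convex (by
      rw [Set.disjoint_left]
      intro a ha haY
      have h1 := h a haY
      rw [mem_ball, dist_eq_norm, norm_sub_rev] at ha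
      linarith)
  have hY : ∀ b ∈ Y, f b = 0 := by
    intro b hb
    by_contra hne
    have := hf2 (((u0 - 1) / f b) • b) (Y.smul_mem _ hb)
    rw [map_smul, smul_eq_mul, div_mul_cancel₀ _ hne] at this
    linarith
  have hu0 : u0 ≤ 0 := by simpa using hf2 0 Y.zero_mem
  have hneg : ∀ a, ‖a - x‖ < q → f a < 0 := by
    intro a ha
    have := hf1 a (by rwa [mem_ball, dist_eq_norm])
    linarith
  have hfx : f x < 0 := hneg x (by simpa using hq)
  set M : ℝ := -f x / q with hM
  have hMpos : 0 < M := div_pos (by linarith) hq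
  have hbound : ∀ w, f w ≤ M * ‖w‖ := by
    intro w
    by_contra hlt
    push Not at hlt
    have hfw : 0 < f w := lt_of_le_of_lt (by positivity) hlt
    have h1 : ‖(x + (-f x / f w) • w) - x‖ < q := by
      rw [add_sub_cancel_left, norm_smul, Real.norm_eq_abs, abs_of_pos (div_pos (by linarith) hfw),
        div_mul_eq_mul_div, div_lt_iff₀ hfw]
      rw [hM, div_mul_eq_mul_div, div_lt_iff₀ hq] at hlt
      linarith
    have h2 := hneg _ h1
    rw [map_add, map_smul, smul_eq_mul, div_mul_cancel₀ _ hfw.ne'] at h2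
    linarith
  refine ⟨(-M⁻¹) • f, ?_, ?_, ?_⟩
  · refine ContinuousLinearMap.opNorm_le_bound _ zero_le_one ?_
    intro w
    have h1 := hbound w
    have h2 := hbound (-w)
    rw [map_neg, norm_neg] at h2
    have h3 : |f w| ≤ M * ‖w‖ := abs_le.2 ⟨by linarith, h1⟩
    rw [_root_.smul_apply, norm_smul, norm_neg, norm_inv, Real.norm_eq_abs,
      Real.norm_eq_abs, abs_of_pos hMpos, one_mul, inv_mul_le_iff₀ hMpos]
    exact h3
  · intro u hu
    simp [hY u hu]
  · rw [_root_.smul_apply, smul_eq_mul, hM]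
    have hne : f x ≠ 0 := hfx.ne
    have : -(-f x / q)⁻¹ * f x = q := by
      field_simp
    rw [this]

/-- The main step. -/
lemma Cov.limit {I : Type*} [LinearOrder I] [WellFoundedLT I] (v : I → X) (L : Set I)
    (hL : IsLowerSet L) {q : ℝ} (hq : 0 < q)
    (h : ∀ i ∈ L, Cov (Submodule.span ℝ (v '' Iic i) : Set X) q) :
    Cov (Submodule.span ℝ (v '' L) : Set X) q := by
  classical
  choose! 𝒞 h1 h2 h3 using h
  -- functionals vanishing before `i`
  let G : I → Set (StrongDual ℝ X) := fun i =>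
    {f | ‖f‖ ≤ 1 ∧ ∀ u ∈ Submodule.span ℝ (v '' Iio i), f u = 0}
  let V : ℝ → ℝ → I → StrongDual ℝ X → Set X := fun a b i f =>
    {x | (∃ u ∈ Submodule.span ℝ (v '' Iic i), ‖x - u‖ < a) ∧ b < f x ∧
      ∀ g ∈ G i, WellOrderingRel g f → g x ≤ a}
  have hVconv : ∀ a b i f, Convex ℝ (V a b i f) := by
    intro a b i f x hx y hy s t hs ht hst
    obtain ⟨⟨u, hu, hxu⟩, hxf, hxg⟩ := hx
    obtain ⟨⟨w, hw, hyw⟩, hyf, hyg⟩ := hy
    refine ⟨⟨s • u + t • w, add_mem (Submodule.smul_mem _ _ hu) (Submodule.smul_mem _ _ hw), ?_⟩,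
      ?_, ?_⟩
    · have e : s • x + t • y - (s • u + t • w) = s • (x - u) + t • (y - w) := by
        simp only [smul_sub]; abel
      rw [e]
      have : ‖s • (x - u) + t • (y - w)‖ ≤ s * ‖x - u‖ + t * ‖y - w‖ := by
        refine (norm_add_le _ _).trans ?_
        rw [norm_smul, norm_smul, Real.norm_of_nonneg hs, Real.norm_of_nonneg ht]
      refine this.trans_lt ?_
      rcases hs.eq_or_lt with rfl | hs'
      · have : t = 1 := by linarith
        subst this
        simpa using hyw
      · have : s * ‖x - u‖ + t * ‖y - w‖ < s * a + t * a := by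
          have := mul_lt_mul_of_pos_left hxu hs'
          have := mul_le_mul_of_nonneg_left hyw.le ht
          linarith
        calc _ < s * a + t * a := this
          _ = a := by rw [← add_mul, hst, one_mul]
    · rw [map_add, map_smul, map_smul, smul_eq_mul, smul_eq_mul]
      have e : b = s * b + t * b := by rw [← add_mul, hst, one_mul]
      rcases hs.eq_or_lt with rfl | hs'
      · have : t = 1 := by linarith
        subst this
        simpa using hyf
      · have := mul_lt_mul_of_pos_left hxf hs'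
        have := mul_le_mul_of_nonneg_left hyf.le ht
        linarith
    · intro g hg hgf
      rw [map_add, map_smul, map_smul, smul_eq_mul, smul_eq_mul]
      have e : a = s * a + t * a := by rw [← add_mul, hst, one_mul]
      have := mul_le_mul_of_nonneg_left (hxg g hg hgf) hs
      have := mul_le_mul_of_nonneg_left (hyg g hg hgf) ht
      linarith
  -- disjointness
  have hdisj : ∀ a b : ℝ, a < b → ∀ i f i' f', f ∈ G i → f' ∈ G i' → ∀ x, x ∈ V a b i f →
      x ∈ V a b i' f' → i = i' ∧ f = f' := by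
    intro a b hab i f i' f' hf hf' x hx hx'
    have key : ∀ i f i' f', f ∈ G i → f' ∈ G i' → x ∈ V a b i f → x ∈ V a b i' f' → ¬ i' < i := by
      intro i f i' f' hf hf' hx hx' hlt
      obtain ⟨⟨u, hu, hxu⟩, -, -⟩ := hx'
      obtain ⟨-, hxf, -⟩ := hx
      have hu' : f u = 0 := hf.2 u (Submodule.span_mono (image_mono
        (fun j hj => mem_Iio.2 (lt_of_le_of_lt (mem_Iic.1 hj) hlt))) hu)
      have h1 : f x = f (x - u) := by rw [map_sub, hu', sub_zero]
      have h2 : f (x - u) ≤ ‖x - u‖ := by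
        refine (le_abs_self _).trans ?_
        have := f.le_opNorm (x - u)
        rw [Real.norm_eq_abs] at this
        refine this.trans ?_
        have := mul_le_mul_of_nonneg_right hf.1 (norm_nonneg (x - u))
        linarith
      linarith
    have hii : i = i' := le_antisymm (not_lt.1 (key i f i' f' hf hf' hx hx'))
      (not_lt.1 (key i' f' i f hf' hf hx' hx))
    subst hii
    refine ⟨rfl, ?_⟩
    rcases trichotomous_of WellOrderingRel f f' with hlt | heq | hgt
    · have := hx'.2.2 f hf hlt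
      have := hx.2.1
      linarith
    · exact heq
    · have := hx.2.2 f' hf' hgt
      have := hx'.2.1
      linarith
  refine Cov.of_encodable (κ := Option (ℚ × ℚ × ℕ)) (fun p => match p with
    | none => {ball 0 q}
    | some p => {D | (p.1 : ℝ) < p.2.1 ∧ ∃ i ∈ L, ∃ f ∈ G i, ∃ C ∈ 𝒞 i p.2.2,
        D = interior (V p.1 p.2.1 i f) ∩ C}) ?_ ?_ ?_
  · rintro (_ | ⟨a, b, n⟩) D hD
    · rw [mem_singleton_iff.1 hD]
      exact ⟨isOpen_ball, convex_ball _ _, 0, subset_rfl⟩
    · obtain ⟨hab, i, hi, f, hf, C, hC, rfl⟩ := hD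
      obtain ⟨ho, hc, c, hcb⟩ := h1 i hi n C hC
      exact ⟨isOpen_interior.inter ho, (hVconv _ _ _ _).interior.inter hc, c,
        inter_subset_right.trans hcb⟩
  · rintro (_ | ⟨a, b, n⟩) D hD D' hD' hne
    · rw [mem_singleton_iff.1 hD, mem_singleton_iff.1 hD']
    · obtain ⟨hab, i, hi, f, hf, C, hC, rfl⟩ := hD
      obtain ⟨-, i', hi', f', hf', C', hC', rfl⟩ := hD'
      obtain ⟨x, ⟨hx1, hx2⟩, ⟨hx1', hx2'⟩⟩ := hne
      obtain ⟨rfl, rfl⟩ := hdisj a b hab i f i' f' hf hf' x (interior_subset hx1)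
        (interior_subset hx1')
      have : C = C' := h2 i hi n C hC C' hC' ⟨x, hx2, hx2'⟩
      rw [this]
  · rintro x ⟨u, hu, hxu⟩
    by_cases hx0 : ‖x‖ < q
    · exact ⟨none, ball 0 q, rfl, by simpa using hx0⟩
    -- the first index
    let S : Set I := {i | i ∈ L ∧ ∃ u ∈ Submodule.span ℝ (v '' Iic i), ‖x - u‖ < q}
    have hS : S.Nonempty := by
      rcases mem_span_image v hu with rfl | ⟨i, hi, hui⟩
      · simp only [sub_zero] at hxu
        exact absurd hxu hx0
      · exact ⟨i, hi, u, hui, hxu⟩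
    obtain ⟨i, hiS, hmin⟩ := WellFounded.has_min (wellFounded_lt (α := I)) S hS
    obtain ⟨hiL, u', hu', hxu'⟩ := hiS
    have hdist : ∀ w ∈ Submodule.span ℝ (v '' Iio i), q ≤ ‖x - w‖ := by
      intro w hw
      by_contra hlt
      push Not at hlt
      rcases mem_span_image v hw with rfl | ⟨j, hj, hwj⟩
      · simp only [sub_zero] at hlt
        exact hx0 hlt
      · exact hmin j ⟨hL (mem_Iio.1 hj).le hiL, w, hwj, hlt⟩ (mem_Iio.1 hj)
    obtain ⟨f0, hf0n, hf0v, hf0x⟩ := exists_functional _ x hq hdist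
    obtain ⟨b0, hb0, hb0q⟩ := exists_between hxu'
    let T : Set (StrongDual ℝ X) := {f | f ∈ G i ∧ b0 < f x}
    have hT : T.Nonempty := ⟨f0, ⟨hf0n, hf0v⟩, hb0q.trans_le hf0x⟩
    obtain ⟨f, ⟨hfG, hfx⟩, hfmin⟩ := WellFounded.has_min
      (WellOrderingRel.isWellOrder (α := StrongDual ℝ X)).wf T hT
    obtain ⟨b, hb1, hb2⟩ := exists_rat_btwn hfx
    obtain ⟨a, ha1, ha2⟩ := exists_rat_btwn hb1
    obtain ⟨n, C, hC, hxC⟩ := h3 i hiL x ⟨u', hu', hxu'⟩
    refine ⟨some (a, b, n), interior (V a b i f) ∩ C, ⟨ha2, i, hiL, f, hfG, C, hC, rfl⟩, ?_, hxC⟩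
    rw [mem_interior_iff_mem_nhds, Metric.mem_nhds_iff]
    set δ : ℝ := min (a - b0) (f x - b) with hδ
    have hδpos : 0 < δ := lt_min (by linarith) (by linarith)
    refine ⟨δ, hδpos, ?_⟩
    intro y hy
    rw [mem_ball, dist_eq_norm] at hy
    have hya : ‖y - x‖ < a - b0 := hy.trans_le (min_le_left _ _)
    have hyb : ‖y - x‖ < f x - b := hy.trans_le (min_le_right _ _)
    have hle : ∀ g ∈ G i, |g y - g x| ≤ ‖y - x‖ := by
      intro g hg
      rw [← map_sub]
      have := g.le_opNorm (y - x)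
      rw [Real.norm_eq_abs] at this
      refine this.trans ?_
      have := mul_le_mul_of_nonneg_right hg.1 (norm_nonneg (y - x))
      linarith
    refine ⟨⟨u', hu', ?_⟩, ?_, ?_⟩
    · have : ‖y - u'‖ ≤ ‖y - x‖ + ‖x - u'‖ := by
        simpa using norm_add_le (y - x) (x - u')
      linarith
    · have := abs_le.1 (hle f hfG)
      linarith [this.1]
    · intro g hg hgf
      have h4 : g x ≤ b0 := by
        by_contra hlt
        push Not at hlt
        exact hfmin g ⟨hg, hlt⟩ hgf
      have := abs_le.1 (hle g hg)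
      linarith [this.2]

/-- Every normed space is covered, for each `q > 0`, by countably many disjoint families of open convex
sets lying in balls of radius `q`. -/
theorem Cov.univ {q : ℝ} (hq : 0 < q) : Cov (Set.univ : Set X) q := by
  classical
  letI : LinearOrder X := linearOrderOfSTO WellOrderingRel
  haveI : WellFoundedLT X := ⟨(WellOrderingRel.isWellOrder (α := X)).wf⟩
  have key : ∀ i : X, Cov (Submodule.span ℝ (id '' Iic i) : Set X) q := by
    intro i
    induction i using WellFoundedLT.induction with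
    | ind i ih =>
      have h1 : Cov (Submodule.span ℝ (id '' Iio i) : Set X) q :=
        Cov.limit id (Iio i) (isLowerSet_Iio i) hq (fun j hj => ih j (mem_Iio.1 hj))
      have h2 := h1.add_span i
      convert h2 using 2
      rw [← Submodule.span_union, ← Iio_insert, image_insert_eq, insert_eq, union_comm]
      simp
  have := Cov.limit id (Set.univ : Set X) isLowerSet_univ hq (fun j _ => key j)
  simpa using this

end Pool.Agent.Helper54_ConvexBase
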